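import Pool.Agent.helper9.HX.Spec

/-! # Row hx:CNP (MP_d9e35a_co) -/

set_option autoImplicit false

open scoped Classical

namespace Pool.Agent.helper9.HX

open Finset
open Pool.Agent.helper65.HC (V IsEig IsTop lam)
open Pool.Agent.helper9.HQ (Fam Dn E N Le hi c)
open Pool.Agent.helper9

theorem CNP : CNP_stmt := by
  intro d U x hU hx hx2
  have hpw : x.powerset.card = 4 := by
    rw [card_powerset, hx2]
    norm_num
  constructor
  · set K := univ.filter (fun k => k ∉ x ∧ insert k x ∈ U) with hK
    set B := (x.powerset ×ˢ K).image (fun t : Finset (Fin d) × Fin d => insert t.2 t.1) with hB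
    have hcB : B.card = 4 * K.card := by
      rw [hB, card_image_of_injOn, card_product, hpw]
      rintro ⟨z, k⟩ hz ⟨z', k'⟩ hz' he
      rw [mem_coe, mem_product, mem_powerset, hK, mem_filter] at hz hz'
      simp only at hz hz' he
      have hzx := hz.1
      have hzx' := hz'.1
      have hk := hz.2.2.1
      have hk' := hz'.2.2.1
      have e1 : z = z' := by
        ext a
        constructor
        · intro ha
          have h1 : a ∈ insert k' z' := by
            rw [← he]
            exact mem_insert_of_mem ha
          rcases mem_insert.1 h1 with h2 | h2
          · exact absurd (hzx ha) (h2 ▸ hk')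
          · exact h2
        · intro ha
          have h1 : a ∈ insert k z := by
            rw [he]
            exact mem_insert_of_mem ha
          rcases mem_insert.1 h1 with h2 | h2
          · exact absurd (hzx' ha) (h2 ▸ hk)
          · exact h2
      have e2 : k = k' := by
        have h1 : k ∈ insert k' z' := by
          rw [← he]
          exact mem_insert_self _ _
        rcases mem_insert.1 h1 with h2 | h2
        · exact h2
        · exact absurd (hzx' h2) hk
      rw [e1, e2]
    have hdisj : Disjoint x.powerset B := by
      rw [disjoint_left]
      intro y hy hyB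
      rw [hB, mem_image] at hyB
      obtain ⟨⟨z, k⟩, hz, rfl⟩ := hyB
      rw [mem_product, hK, mem_filter] at hz
      rw [mem_powerset] at hy
      exact hz.2.2.1 (hy (mem_insert_self _ _))
    have hsub : x.powerset ∪ B ⊆ U := by
      intro y hy
      rcases mem_union.1 hy with h | h
      · exact hU x hx y (mem_powerset.1 h)
      · rw [hB, mem_image] at h
        obtain ⟨⟨z, k⟩, hz, rfl⟩ := h
        rw [mem_product, mem_powerset, hK, mem_filter] at hz
        exact hU _ hz.2.2.2 _ (insert_subset_insert _ hz.1)
    have h1 := card_le_card hsub
    rw [card_union_of_disjoint hdisj, hcB, hpw] at h1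
    have h2 : up x U = K.card := rfl
    rw [h2]
    omega
  · set B := (x.powerset ×ˢ four x U).image
      (fun t : Finset (Fin d) × Finset (Fin d) => t.1 ∪ (t.2 \ x)) with hB
    have hcB : B.card = 4 * (four x U).card := by
      rw [hB, card_image_of_injOn, card_product, hpw]
      rintro ⟨z, y⟩ hz ⟨z', y'⟩ hz' he
      rw [mem_coe, mem_product, mem_powerset, four, mem_filter] at hz hz'
      simp only at hz hz' he
      have hzx := hz.1
      have hzx' := hz'.1
      have hxy := hz.2.2.2
      have hxy' := hz'.2.2.2
      have key : ∀ a, (a ∈ z ∨ (a ∈ y ∧ a ∉ x)) ↔ (a ∈ z' ∨ (a ∈ y' ∧ a ∉ x)) := by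
        intro a
        have := Finset.ext_iff.1 he a
        simpa only [mem_union, mem_sdiff] using this
      have e1 : z = z' := by
        ext a
        constructor
        · intro ha
          rcases (key a).1 (Or.inl ha) with h | h
          · exact h
          · exact absurd (hzx ha) h.2
        · intro ha
          rcases (key a).2 (Or.inl ha) with h | h
          · exact h
          · exact absurd (hzx' ha) h.2
      have e2 : y = y' := by
        ext a
        by_cases hax : a ∈ x
        · exact ⟨fun _ => hxy' hax, fun _ => hxy hax⟩
        · constructor
          · intro ha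
            rcases (key a).1 (Or.inr ⟨ha, hax⟩) with h | h
            · exact absurd (hzx' h) hax
            · exact h.1
          · intro ha
            rcases (key a).2 (Or.inr ⟨ha, hax⟩) with h | h
            · exact absurd (hzx h) hax
            · exact h.1
      rw [e1, e2]
    have hsub : B ⊆ U := by
      intro w hw
      rw [hB, mem_image] at hw
      obtain ⟨⟨z, y⟩, hz, rfl⟩ := hw
      rw [mem_product, mem_powerset, four, mem_filter] at hz
      exact hU y hz.2.1 _ (union_subset (hz.1.trans hz.2.2.2) sdiff_subset)
    have h1 := card_le_card hsub
    rw [hcB] at h1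
    exact h1

end Pool.Agent.helper9.HX
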